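import Mathlib

/-!
Subgroups of `ℤ^k`, vectors orthogonal to them, and changes of some coordinates (helper file).
-/

set_option autoImplicit false

namespace Pool.Agent.Q170.RG

variable {k : ℕ}

/-- the orthogonal space of a subgroup of `ℤ^k` -/
def orth (M : Submodule ℤ (Fin k → ℤ)) : Submodule ℚ (Fin k → ℚ) where
  carrier := {v | ∀ a ∈ M, ∑ j, (a j : ℚ) * v j = 0}
  zero_mem' := fun a _ => by simp
  add_mem' := by
    intro v w hv hw a ha
    simp only [Pi.add_apply, mul_add, Finset.sum_add_distrib]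
    rw [hv a ha, hw a ha, add_zero]
  smul_mem' := by
    intro q v hv a ha
    have h1 : ∑ j, (a j : ℚ) * (q • v) j = q * ∑ j, (a j : ℚ) * v j := by
      rw [Finset.mul_sum]
      refine Finset.sum_congr rfl fun j _ => ?_
      rw [Pi.smul_apply, smul_eq_mul]
      ring
    rw [h1, hv a ha, mul_zero]

theorem mem_orth {M : Submodule ℤ (Fin k → ℤ)} {v : Fin k → ℚ} :
    v ∈ orth M ↔ ∀ a ∈ M, ∑ j, (a j : ℚ) * v j = 0 := Iff.rfl

theorem finrank_orth (M : Submodule ℤ (Fin k → ℤ)) {s : ℕ} (hs : s ≤ Module.finrank ℤ M) :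
    Module.finrank ℚ (orth M) + s ≤ k := by
  obtain ⟨f, hf⟩ := exists_linearIndependent_of_le_finrank hs
  -- independence over the rational numbers
  let A : Matrix (Fin s) (Fin k) ℚ := fun i j => ((f i : Fin k → ℤ) j : ℚ)
  have hA : LinearIndependent ℚ A.row := by
    have h1 : LinearIndependent ℤ (fun i => (fun j => ((f i : Fin k → ℤ) j : ℚ) : Fin k → ℚ)) := by
      rw [Fintype.linearIndependent_iff] at hf ⊢
      intro g hg
      refine hf g ?_
      apply Subtype.ext
      funext j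
      have h2 := congrFun hg j
      have h3 : ((∑ i, g i * (f i : Fin k → ℤ) j : ℤ) : ℚ) = 0 := by
        push_cast
        simpa [Finset.sum_apply] using h2
      have h4 : ∑ i, g i * (f i : Fin k → ℤ) j = 0 := by exact_mod_cast h3
      simpa [Finset.sum_apply] using h4
    exact (LinearIndependent.iff_fractionRing ℤ ℚ).1 h1
  have h2 : A.rank = s := by
    rw [hA.rank_matrix, Fintype.card_fin]
  have h3 := LinearMap.finrank_range_add_finrank_ker A.mulVecLin
  rw [Module.finrank_fin_fun] at h3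
  have h4 : Module.finrank ℚ (orth M) ≤ Module.finrank ℚ (LinearMap.ker A.mulVecLin) := by
    refine Submodule.finrank_mono fun v hv => ?_
    rw [LinearMap.mem_ker]
    funext i
    exact hv _ (f i).2
  have h5 : Module.finrank ℚ (LinearMap.range A.mulVecLin) = s := h2
  omega

/-- A vector which is orthogonal to the elements of `M` with support outside of `Y` can be changed in
the coordinates in `Y` to be orthogonal to `M`. -/
theorem exists_vec (M : Submodule ℤ (Fin k → ℤ)) (Y : Finset (Fin k)) (c : Fin k → ℚ)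
    (h : ∀ a ∈ M, (∀ j ∈ Y, a j = 0) → ∑ j, (a j : ℚ) * c j = 0) :
    ∃ v ∈ orth M, ∀ j, j ∉ Y → v j = c j := by
  classical
  let ι : (Fin k → ℤ) → Fin k → ℚ := fun a j => a j
  let W : Submodule ℚ (Fin k → ℚ) := Submodule.span ℚ (ι '' (M : Set (Fin k → ℤ)))
  have hW : ∀ w ∈ W, ∃ N : ℤ, N ≠ 0 ∧ ∃ a ∈ M, ι a = (N : ℚ) • w := by
    intro w hw
    induction hw using Submodule.span_induction with
    | mem w hw =>
      obtain ⟨a, ha, rfl⟩ := hw
      exact ⟨1, one_ne_zero, a, ha, by simp⟩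
    | zero => exact ⟨1, one_ne_zero, 0, M.zero_mem, by funext j; simp [ι]⟩
    | add w w' _ _ h1 h2 =>
      obtain ⟨N, hN, a, ha, h1⟩ := h1
      obtain ⟨N', hN', a', ha', h2⟩ := h2
      refine ⟨N * N', mul_ne_zero hN hN', N' • a + N • a', M.add_mem (M.smul_mem _ ha)
        (M.smul_mem _ ha'), ?_⟩
      funext j
      have h3 := congrFun h1 j
      have h4 := congrFun h2 j
      simp only [ι, Pi.smul_apply, smul_eq_mul, Pi.add_apply] at h3 h4 ⊢
      push_cast
      rw [h3, h4]
      ring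
    | smul q w _ h1 =>
      obtain ⟨N, hN, a, ha, h1⟩ := h1
      refine ⟨N * q.den, mul_ne_zero hN (by exact_mod_cast q.den_ne_zero), q.num • a,
        M.smul_mem _ ha, ?_⟩
      funext j
      have h3 := congrFun h1 j
      simp only [ι, Pi.smul_apply, smul_eq_mul] at h3 ⊢
      push_cast
      rw [h3]
      have h4 : (q : ℚ) * q.den = q.num := Rat.mul_den_eq_num q
      calc (q.num : ℚ) * (N * w j) = (q * q.den) * (N * w j) := by rw [h4]
        _ = _ := by ring
  let ψ : W →ₗ[ℚ] ℚ :=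
    { toFun := fun w => ∑ j, (w : Fin k → ℚ) j * c j
      map_add' := fun v w => by simp [add_mul, Finset.sum_add_distrib]
      map_smul' := fun q v => by simp [Finset.mul_sum, mul_assoc] }
  let π : W →ₗ[ℚ] (Y → ℚ) :=
    { toFun := fun w j => (w : Fin k → ℚ) j
      map_add' := fun _ _ => rfl
      map_smul' := fun _ _ => rfl }
  have hker : ψ ∈ (LinearMap.ker π).dualAnnihilator := by
    rw [Submodule.mem_dualAnnihilator]
    intro w hw
    obtain ⟨N, hN, a, ha, h1⟩ := hW w w.2
    have h2 : ∀ j ∈ Y, a j = 0 := by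
      intro j hj
      have h3 : (w : Fin k → ℚ) j = 0 := congrFun (LinearMap.mem_ker.1 hw) ⟨j, hj⟩
      have h4 := congrFun h1 j
      simp only [ι, Pi.smul_apply, smul_eq_mul, h3, mul_zero] at h4
      exact_mod_cast h4
    have h3 := h a ha h2
    have h4 : ∑ j, (a j : ℚ) * c j = N * ψ w := by
      change _ = (N : ℚ) * ∑ j, (w : Fin k → ℚ) j * c j
      rw [Finset.mul_sum]
      refine Finset.sum_congr rfl fun j _ => ?_
      have h5 := congrFun h1 j
      simp only [ι, Pi.smul_apply, smul_eq_mul] at h5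
      rw [h5]
      ring
    rw [h4] at h3
    exact (mul_eq_zero.1 h3).resolve_left (by exact_mod_cast hN)
  rw [← LinearMap.range_dualMap_eq_dualAnnihilator_ker] at hker
  obtain ⟨g, hg⟩ := hker
  refine ⟨fun j => if hj : j ∈ Y then c j - g (Pi.single ⟨j, hj⟩ 1) else c j, ?_, fun j hj => by
    simp only [dif_neg hj]⟩
  rw [mem_orth]
  intro a ha
  let w : W := ⟨ι a, Submodule.subset_span ⟨a, ha, rfl⟩⟩
  have h1 : g (π w) = ψ w := congrArg (fun f => f w) hg
  have h2 : π w = ∑ j : Y, (a j : ℚ) • Pi.single j (1 : ℚ) := by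
    funext i
    simp [Finset.sum_apply, Pi.single_apply, π, w, ι]
  rw [h2, map_sum] at h1
  have h3 : ψ w = ∑ j, (a j : ℚ) * c j := rfl
  rw [h3] at h1
  have h4 : ∑ j, (a j : ℚ) * (if hj : j ∈ Y then c j - g (Pi.single ⟨j, hj⟩ 1) else c j) =
      ∑ j, (a j : ℚ) * c j - ∑ j, (if hj : j ∈ Y then (a j : ℚ) * g (Pi.single ⟨j, hj⟩ 1) else 0) := by
    rw [← Finset.sum_sub_distrib]
    refine Finset.sum_congr rfl fun j _ => ?_
    split_ifs <;> ring
  rw [h4, ← h1, sub_eq_zero]
  let G : Fin k → ℚ := fun j => if hj : j ∈ Y then (a j : ℚ) * g (Pi.single ⟨j, hj⟩ 1) else 0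
  have h5 : ∑ j, G j = ∑ j ∈ Y, G j :=
    (Finset.sum_subset (Finset.subset_univ _) (fun j _ hj => by simp only [G, dif_neg hj])).symm
  have h6 : (∑ j, if hj : j ∈ Y then (a j : ℚ) * g (Pi.single ⟨j, hj⟩ 1) else 0) = ∑ j, G j := rfl
  rw [h6, h5, ← Finset.sum_coe_sort Y G]
  refine Finset.sum_congr rfl fun x _ => ?_
  simp only [G, dif_pos x.2, map_smul, smul_eq_mul]

end Pool.Agent.Q170.RG
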