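import Mathlib

/-!
Rigid systems of vectors: no linear subspace of codimension `s` of `ℚ^k` is at a Hamming distance
smaller than `s` from more than `s (k - s)` of the vectors. Almost all systems of vectors are rigid.
-/

set_option autoImplicit false

open MvPolynomial

namespace Pool.Agent.Q170.RG

/-- The vectors `c_1, …, c_L` in `ℚ^k` are rigid (up to `m`): for `s ≤ m + 1` no linear subspace of
codimension `s` (or larger) is at a Hamming distance smaller than `s` from more than `s (k - s)` of the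
vectors. Here `s (k - s)` is the dimension of the Grassmannian of these subspaces. -/
def Rigid {L k : ℕ} (m : ℕ) (c : Fin L → Fin k → ℕ) : Prop :=
  ∀ (s : ℕ) (B : Submodule ℚ (Fin k → ℚ)), s ≤ m + 1 → Module.finrank ℚ B + s ≤ k →
    ∀ F : Finset (Fin L), (∀ l ∈ F, ∃ v ∈ B, hammingDist v (fun j => (c l j : ℚ)) < s) →
      F.card ≤ s * (k - s)

theorem Rigid.comp {L M k m : ℕ} {c : Fin M → Fin k → ℕ} (h : Rigid m c) (f : Fin L → Fin M)
    (hf : Function.Injective f) : Rigid m fun l j => c (f l) j := by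
  intro s B hs hB F hF
  have h1 := h s B hs hB (F.map ⟨f, hf⟩) (fun l hl => by
    obtain ⟨l', hl', rfl⟩ := Finset.mem_map.1 hl
    exact hF l' hl')
  rwa [Finset.card_map] at h1

/-- More polynomials than variables satisfy a polynomial relation. -/
theorem exists_rel {σ τ : Type} [Fintype σ] [Fintype τ] (g : τ → MvPolynomial σ ℚ)
    (h : Fintype.card σ < Fintype.card τ) : ∃ P : MvPolynomial τ ℚ, P ≠ 0 ∧ aeval g P = 0 := by
  by_contra hcon
  push Not at hcon
  have h1 : AlgebraicIndependent ℚ g := by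
    rw [algebraicIndependent_iff]
    intro P hP
    by_contra h0
    exact hcon P h0 hP
  have h2 := h1.cardinalMk_le_trdeg
  rw [MvPolynomial.trdeg_of_isDomain, Cardinal.lift_id, Cardinal.mk_fintype, Cardinal.mk_fintype] at h2
  have h3 : Fintype.card τ ≤ Fintype.card σ := by exact_mod_cast h2
  omega

/-- A subspace has a set of pivots: it is contained in the graph of a linear map (here without
condition on the dimension: the set of pivots has as many elements as we want). -/
theorem exists_pivots {k d : ℕ} (B : Submodule ℚ (Fin k → ℚ)) (hB : Module.finrank ℚ B ≤ d)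
    (hd : d ≤ k) : ∃ (I : Finset (Fin k)) (w : Fin k → Fin k → ℚ), I.card = d ∧
      (∀ i ∈ I, ∀ j ∈ I, w j i = if j = i then 1 else 0) ∧
      ∀ v ∈ B, ∀ j, v j = ∑ i ∈ I, w j i * v i := by
  classical
  -- a subset of the coordinate functionals which is a basis of the dual of `B`
  let φ : Fin k → Module.Dual ℚ B := fun j => (LinearMap.proj j).comp B.subtype
  have hspan : Submodule.span ℚ (Set.range φ) = ⊤ := by
    rw [eq_top_iff]
    intro f _
    obtain ⟨g, hg⟩ := LinearMap.exists_extend f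
    have h1 : f = ∑ j, g (Pi.single j 1) • φ j := by
      ext v
      have h2 : f v = g (v : Fin k → ℚ) := by rw [← hg]; rfl
      rw [h2]
      have h3 : (v : Fin k → ℚ) = ∑ j, (v : Fin k → ℚ) j • Pi.single j (1 : ℚ) := by
        funext i
        simp [Finset.sum_apply, Pi.single_apply]
      conv_lhs => rw [h3]
      rw [map_sum]
      simp [φ, mul_comm]
    rw [h1]
    exact Submodule.sum_mem _ fun j _ => Submodule.smul_mem _ _ (Submodule.subset_span ⟨j, rfl⟩)
  obtain ⟨κ, a, ha, hsp, hli⟩ := exists_linearIndependent' ℚ φ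
  have : Finite κ := Finite.of_injective a ha
  have := Fintype.ofFinite κ
  have hκ : Fintype.card κ ≤ d := by
    have h1 := hli.fintype_card_le_finrank
    rw [Subspace.dual_finrank_eq] at h1
    exact h1.trans hB
  let I0 : Finset (Fin k) := Finset.univ.image a
  have hI0c : I0.card = Fintype.card κ := by
    rw [Finset.card_image_of_injective _ ha, Finset.card_univ]
  obtain ⟨I, hI1, -, hI3⟩ := Finset.exists_subsuperset_card_eq (s := I0)
    (t := Finset.univ) (n := d) (Finset.subset_univ _) (by rw [hI0c]; exact hκ)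
    (by rw [Finset.card_univ, Fintype.card_fin]; exact hd)
  have hcomb : ∀ j, ∃ u : κ → ℚ, φ j = ∑ t, u t • φ (a t) := by
    intro j
    have h1 : φ j ∈ Submodule.span ℚ (Set.range (φ ∘ a)) := by
      rw [hsp]
      exact Submodule.subset_span ⟨j, rfl⟩
    obtain ⟨u, hu⟩ := (Submodule.mem_span_range_iff_exists_fun ℚ).1 h1
    exact ⟨u, hu.symm⟩
  choose u hu using hcomb
  refine ⟨I, fun j i => if j ∈ I then (if j = i then 1 else 0) else ∑ t, if a t = i then u j t else 0,
    hI3, fun i hi j hj => by simp only [if_pos hj], fun v hv j => ?_⟩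
  by_cases hj : j ∈ I
  · simp [hj]
  · simp only [if_neg hj]
    have h1 := congrArg (fun f => f ⟨v, hv⟩) (hu j)
    have h2 : v j = ∑ t, u j t * v (a t) := by
      simpa [φ] using h1
    rw [h2]
    have h3 : ∀ t, u j t * v (a t) = ∑ i ∈ I, (if a t = i then u j t else 0) * v i := by
      intro t
      rw [Finset.sum_eq_single (a t)]
      · rw [if_pos rfl]
      · intro b _ hb
        rw [if_neg (Ne.symm hb), zero_mul]
      · intro h
        exact absurd (hI1 (Finset.mem_image_of_mem a (Finset.mem_univ t))) h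
    rw [Finset.sum_congr rfl fun t _ => h3 t, Finset.sum_comm]
    refine Finset.sum_congr rfl fun i _ => ?_
    rw [Finset.sum_mul]

/-- The variables for the systems of vectors which are not rigid, with a given pattern. -/
abbrev Var {L k : ℕ} (F : Finset (Fin L)) (Y : Fin L → Finset (Fin k)) (I : Finset (Fin k)) : Type :=
  ({j // j ∈ Iᶜ} × {i // i ∈ I}) ⊕ (({l // l ∈ F} × {i // i ∈ I}) ⊕ (Σ l : {l // l ∈ F}, {j // j ∈ Y l}))

theorem card_var {L k s : ℕ} (F : Finset (Fin L)) (Y : Fin L → Finset (Fin k)) (I : Finset (Fin k))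
    (hY : ∀ l, (Y l).card < s) (hsk : s ≤ k) (hI : I.card = k - s) (hF : s * (k - s) < F.card) :
    Fintype.card (Var F Y I) < Fintype.card ({l // l ∈ F} × Fin k) := by
  rw [Fintype.card_sum, Fintype.card_sum, Fintype.card_prod, Fintype.card_prod, Fintype.card_prod,
    Fintype.card_sigma]
  simp only [Fintype.card_coe, Fintype.card_fin]
  rw [Finset.card_compl, Fintype.card_fin, hI]
  have h1 : ∑ l : {l // l ∈ F}, (Y l).card ≤ F.card * (s - 1) := by
    refine (Finset.sum_le_card_nsmul _ _ (s - 1) fun l _ => ?_).trans ?_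
    · have := hY l
      omega
    · rw [Finset.card_univ, Fintype.card_coe, smul_eq_mul]
  have hs : 0 < s := by
    by_contra h
    have h0 : s = 0 := by omega
    subst h0
    by_cases hL : F.card = 0
    · omega
    · obtain ⟨l, hl⟩ := Finset.card_pos.1 (Nat.pos_of_ne_zero hL)
      exact absurd (hY l) (by omega)
  have h2 : k - (k - s) = s := by omega
  rw [h2]
  have h3 : F.card * k = F.card * (k - s) + F.card * (s - 1) + F.card := by
    have h4 : k = (k - s) + (s - 1) + 1 := by omega
    calc F.card * k = F.card * ((k - s) + (s - 1) + 1) := by rw [← h4]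
      _ = _ := by ring
  omega

/-- The relation for a pattern. -/
theorem exists_pattern {L k s : ℕ} (F : Finset (Fin L)) (Y : Fin L → Finset (Fin k))
    (I : Finset (Fin k)) (hY : ∀ l, (Y l).card < s) (hsk : s ≤ k) (hI : I.card = k - s)
    (hF : s * (k - s) < F.card) :
    ∃ P : MvPolynomial (Fin L × Fin k) ℚ, P ≠ 0 ∧ ∀ c : Fin L → Fin k → ℕ,
      (∃ w : Fin k → Fin k → ℚ, (∀ i ∈ I, ∀ j ∈ I, w j i = if j = i then 1 else 0) ∧
        ∀ l ∈ F, ∃ v : Fin k → ℚ, (∀ j, v j = ∑ i ∈ I, w j i * v i) ∧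
          ∀ j, j ∉ Y l → v j = c l j) → eval (fun x => (c x.1 x.2 : ℚ)) P = 0 := by
  classical
  let W : Fin k → Fin k → MvPolynomial (Var F Y I) ℚ := fun j i =>
    if hi : i ∈ I then
      if hj : j ∈ I then (if j = i then 1 else 0)
      else X (Sum.inl (⟨j, Finset.mem_compl.2 hj⟩, ⟨i, hi⟩))
    else 0
  let Z : {l // l ∈ F} → Fin k → MvPolynomial (Var F Y I) ℚ := fun l i =>
    if hi : i ∈ I then X (Sum.inr (Sum.inl (l, ⟨i, hi⟩))) else 0
  let f : {l // l ∈ F} → Fin k → MvPolynomial (Var F Y I) ℚ := fun l j =>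
    if hj : j ∈ Y l then X (Sum.inr (Sum.inr ⟨l, ⟨j, hj⟩⟩)) else 0
  let g : {l // l ∈ F} × Fin k → MvPolynomial (Var F Y I) ℚ := fun x =>
    ∑ i ∈ I, W x.2 i * Z x.1 i + f x.1 x.2
  obtain ⟨P, hP, hPg⟩ := exists_rel g (card_var F Y I hY hsk hI hF)
  have hinj : Function.Injective (fun x : {l // l ∈ F} × Fin k => ((x.1 : Fin L), x.2)) := by
    rintro ⟨x1, x2⟩ ⟨y1, y2⟩ h
    obtain ⟨h1, h2⟩ := Prod.mk.inj h
    exact Prod.ext (Subtype.ext h1) h2
  refine ⟨rename (fun x : {l // l ∈ F} × Fin k => ((x.1 : Fin L), x.2)) P, ?_, ?_⟩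
  · intro h0
    apply hP
    apply rename_injective _ hinj
    rw [h0, map_zero]
  · rintro c ⟨w, hw, hv⟩
    choose v hv1 hv2 using fun l : {l // l ∈ F} => hv l l.2
    let pt : Var F Y I → ℚ := Sum.elim (fun x => w x.1 x.2) (Sum.elim (fun x => v x.1 x.2)
      (fun x => c x.1 x.2 - v x.1 x.2))
    have hW : ∀ j, ∀ i ∈ I, eval pt (W j i) = w j i := by
      intro j i hi
      by_cases hj : j ∈ I
      · simp only [W, dif_pos hi, dif_pos hj]
        rw [hw i hi j hj]
        split_ifs <;> simp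
      · simp only [W, dif_pos hi, dif_neg hj, eval_X]
        rfl
    have hZ : ∀ l, ∀ i ∈ I, eval pt (Z l i) = v l i := by
      intro l i hi
      simp only [Z, dif_pos hi, eval_X]
      rfl
    have hf : ∀ l j, eval pt (f l j) = c l j - v l j := by
      intro l j
      by_cases hj : j ∈ Y l
      · simp only [f, dif_pos hj, eval_X]
        rfl
      · simp only [f, dif_neg hj, map_zero]
        rw [hv2 l j hj, sub_self]
    have hg : ∀ x, eval pt (g x) = c x.1 x.2 := by
      intro x
      simp only [g, map_add, map_sum, map_mul]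
      rw [hf, Finset.sum_congr rfl fun i hi => by rw [hW _ i hi, hZ _ i hi], ← hv1 x.1 x.2]
      ring
    rw [eval_rename]
    have h1 : eval pt (aeval g P) = 0 := by rw [hPg, map_zero]
    have h2 : eval pt (aeval g P) = eval (fun x => eval pt (g x)) P := by
      rw [map_aeval]
      have h3 : (eval pt).comp (algebraMap ℚ (MvPolynomial (Var F Y I) ℚ)) = RingHom.id ℚ := by
        refine RingHom.ext fun a => ?_
        rw [RingHom.comp_apply, MvPolynomial.algebraMap_eq, eval_C]
        rfl
      rw [h3]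
      rfl
    rw [h2, funext hg] at h1
    exact h1

open scoped Classical in
/-- Almost all systems of vectors are rigid: those outside of the zero set of a polynomial. -/
theorem rigid_generic (L k m : ℕ) : ∃ P : MvPolynomial (Fin L × Fin k) ℚ, P ≠ 0 ∧
    ∀ c : Fin L → Fin k → ℕ, eval (fun x => (c x.1 x.2 : ℚ)) P ≠ 0 → Rigid m c := by
  let Pat : Type := Fin (k + 1) × Finset (Fin L) × (Fin L → Finset (Fin k)) × Finset (Fin k)
  let ok : Pat → Prop := fun x => (∀ l, (x.2.2.1 l).card < x.1) ∧ x.2.2.2.card = k - x.1 ∧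
    (x.1 : ℕ) * (k - x.1) < x.2.1.card
  have hP : ∀ x : Pat, ∃ P : MvPolynomial (Fin L × Fin k) ℚ, P ≠ 0 ∧ (ok x →
      ∀ c : Fin L → Fin k → ℕ,
      (∃ w : Fin k → Fin k → ℚ, (∀ i ∈ x.2.2.2, ∀ j ∈ x.2.2.2, w j i = if j = i then 1 else 0) ∧
        ∀ l ∈ x.2.1, ∃ v : Fin k → ℚ, (∀ j, v j = ∑ i ∈ x.2.2.2, w j i * v i) ∧
          ∀ j, j ∉ x.2.2.1 l → v j = c l j) → eval (fun x => (c x.1 x.2 : ℚ)) P = 0) := by
    intro x
    by_cases h : ok x
    · obtain ⟨P, hP, h1⟩ := exists_pattern x.2.1 x.2.2.1 x.2.2.2 h.1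
        (Nat.lt_succ_iff.1 x.1.2) h.2.1 h.2.2
      exact ⟨P, hP, fun _ => h1⟩
    · exact ⟨1, one_ne_zero, fun h' => absurd h' h⟩
  choose P hP0 hP using hP
  refine ⟨∏ x, P x, Finset.prod_ne_zero_iff.2 fun x _ => hP0 x, fun c hc => ?_⟩
  intro s B hs hB F hF
  by_contra hcon
  push Not at hcon
  apply hc
  rw [map_prod]
  have hsk : s ≤ k := by omega
  choose! v hvB hv using hF
  obtain ⟨I, w, hI, hw, hIv⟩ := exists_pivots (d := k - s) B (by omega) (by omega)
  have hs0 : 0 < s := by
    by_contra h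
    have h0 : s = 0 := by omega
    subst h0
    obtain ⟨l, hl⟩ := Finset.card_pos.1 (Nat.zero_lt_of_lt hcon)
    exact absurd (hv l hl) (by omega)
  let Y : Fin L → Finset (Fin k) := fun l =>
    if l ∈ F then Finset.univ.filter fun j => v l j ≠ c l j else ∅
  refine Finset.prod_eq_zero (Finset.mem_univ (⟨⟨s, by omega⟩, F, Y, I⟩ : Pat)) ?_
  refine hP _ ⟨fun l => ?_, hI, hcon⟩ c ⟨w, hw, fun l hl => ⟨v l, fun j => hIv _ (hvB l hl) j,
    fun j hj => ?_⟩⟩
  · by_cases hl : l ∈ F
    · simp only [Y, if_pos hl]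
      exact hv l hl
    · simp only [Y, if_neg hl, Finset.card_empty]
      exact hs0
  · simp only [Y, if_pos hl, Finset.mem_filter, Finset.mem_univ, true_and, not_not] at hj
    exact hj

end Pool.Agent.Q170.RG
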