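import Pool.Agent.Y910.Z.Z4
import Pool.Agent.Q170.RG.Crit

/-!
Members of one-parameter families in `Y_1 × … × Y_n × G_m^k` over finitely generated fields, for rigid
systems of orders (helper file; the proof is that of `MP_a325a5_ag.FinitelyGeneratedFields` with the
criterion `Pool.Agent.Q170.RG.criterionMR`).
-/

set_option autoImplicit false

namespace Pool.Agent.Q170.RG

open H294ZP UpperHalfPlane MvPolynomial Pool.Agent.W282.ZP Pool.Agent.Y910.Z
open Pool.Agent.TH526.ZL (spec)
open Pool.Agent.Q170.ZP (IndExp)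
open Pool.Agent.Y152.RP.FamM (SpecialVariety SpecialVariety.locus coset NoAtypical evalAt OnB
  InGeneralPosition valueAt scaledImage rel_of_locus)

/-- The order of the zero of `c` at the complex number `α`. -/
noncomputable def order {K : Subfield ℂ} (c : Polynomial K) (α : ℂ) : ℕ :=
  (c.map (algebraMap K ℂ)).rootMultiplicity α

/-- The orders of the zeros of the `c i` at the elements of the `D l` are positive and independent:
for every choice of elements `α_l` of `L` of the sets the orders for the modular coordinates at any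
`m + 2` of the `α_l` are multiplicatively independent modulo squares, and the vectors of the orders
for the torus coordinates are rigid. -/
def IndependentOrders {K : Subfield ℂ} {n k M : ℕ} (L m T : ℕ) (c : Fin n ⊕ Fin k → Polynomial K)
    (D : Fin M → Finset ℂ) : Prop :=
  (∀ l, ∀ α ∈ D l, ∀ i, 0 < order (c i) α) ∧
  ∀ (f : Fin L → Fin M) (α : Fin L → ℂ), Function.Injective f → (∀ l, α l ∈ D (f l)) →
    (∀ μ ≤ m, ∀ g : Fin (μ + 2) → Fin L, Function.Injective g →
      IndExp T fun l i => order (c (Sum.inl i)) (α (g l))) ∧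
    Rigid m fun l j => order (c (Sum.inr j)) (α l)

/-- integrality over a larger ring -/
theorem int_up {Λ : Type} [CommRing Λ] [Algebra Λ ℂ]
    (hinj : Function.Injective (algebraMap Λ ℂ)) (Γ : Set ℂ)
    (h : ∀ g ∈ Γ, g ∈ (algebraMap Λ ℂ).range) {z : ℂ}
    (hz : IsIntegral (Algebra.adjoin ℤ Γ) z) : IsIntegral Λ z := by
  obtain ⟨P, hP, hPe⟩ := hz
  have hle : ∀ w ∈ Algebra.adjoin ℤ Γ, w ∈ (algebraMap Λ ℂ).range := by
    intro w hw
    have h9 : Algebra.adjoin ℤ Γ ≤ subalgebraOfSubring (algebraMap Λ ℂ).range :=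
      Algebra.adjoin_le fun g hg => h g hg
    exact h9 hw
  let e : Λ ≃+* (algebraMap Λ ℂ).range := RingEquiv.ofBijective (algebraMap Λ ℂ).rangeRestrict
    ⟨fun a b h => hinj (congrArg Subtype.val h), (algebraMap Λ ℂ).rangeRestrict_surjective⟩
  let φ : Algebra.adjoin ℤ Γ →+* Λ := (e.symm : (algebraMap Λ ℂ).range →+* Λ).comp
    ((algebraMap (Algebra.adjoin ℤ Γ) ℂ).codRestrict (algebraMap Λ ℂ).range
      fun w => hle w w.2)
  refine ⟨P.map φ, hP.map φ, ?_⟩
  rw [Polynomial.eval₂_map]
  have h1 : (algebraMap Λ ℂ).comp φ = algebraMap (Algebra.adjoin ℤ Γ) ℂ := by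
    refine RingHom.ext fun w => ?_
    have h2 : ((e (φ w) : (algebraMap Λ ℂ).range) : ℂ) = (w : ℂ) := by
      have h3 : e (φ w) = ⟨(w : ℂ), hle w w.2⟩ := e.apply_symm_apply _
      rw [h3]
    exact h2
  rw [h1]
  exact hPe

/-- homogeneous lifts -/
theorem hom_lift {A B : Type} [CommRing A] [CommRing B] (f : A →+* B)
    {σ : Type} {P' : MvPolynomial σ A} {P : MvPolynomial σ B} (h : MvPolynomial.map f P' = P)
    (hf : Function.Injective f) {e : ℕ} (hP : P.IsHomogeneous e) : P'.IsHomogeneous e := by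
  intro u hu
  refine hP (d := u) ?_
  rw [← h, MvPolynomial.coeff_map]
  exact (map_ne_zero_iff f hf).2 hu

/-- The members with parameters in finitely generated fields and rings. -/
theorem fgMR (K : Subfield ℂ) [Countable K] (κ : Type) [Finite κ] (N n k m M T L : ℕ)
    (hL : ∀ s ≤ m + 1, s * (k - s) + (m + 1 - s) + 1 ≤ L)
    (G : κ → MvPolynomial (Fin (N + 1)) (Polynomial K)) (hG : ∀ l, ∃ e, (G l).IsHomogeneous e)
    (A B : Fin n ⊕ Fin k → MvPolynomial (Fin (N + 1)) (Polynomial K)) (δ : Fin n ⊕ Fin k → ℕ)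
    (hA : ∀ i, (A i).IsHomogeneous (δ i)) (hB : ∀ i, (B i).IsHomogeneous (δ i))
    (R : Fin n → Polynomial (Polynomial K)) (hR : ∀ i, (R i).Monic)
    (hT : ∀ i u w, ((R i).coeff u).coeff w ≠ 0 → u ≤ T ∧ w ≤ T)
    (c : Fin n ⊕ Fin k → Polynomial K) (D : Fin M → Finset ℂ)
    (hD : ∀ l, ∀ α ∈ D l, IsAlgebraic K α) (hind : IndependentOrders L m T c D)
    (hpos : ∀ l, ∀ α ∈ D l, InGeneralPosition α m G A B)
    (Γ : Finset ℂ) (hΓ : ∀ γ ∈ Γ, IsAlgebraic K γ) (F : Finset ℂ)
    (hF : ∀ z ∈ F, IsAlgebraic K z) :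
    ((∀ I : Finset (Fin M), M + 1 ≤ I.card + L → 3 ≤ (I.biUnion D).card) →
      {t : ℂ | t ∈ Subfield.closure (F : Set ℂ) ∧
        ¬ NoAtypical (algebraMap (Algebra.adjoin ℤ (Γ : Set ℂ)) ℂ) K m
          (scaledImage t G A B R c)}.Finite) ∧
    ((∀ I : Finset (Fin M), M + 1 ≤ I.card + L → 2 ≤ (I.biUnion D).card) →
      {t : ℂ | t ∈ Subring.closure (F : Set ℂ) ∧
        ¬ NoAtypical (algebraMap (Algebra.adjoin ℤ (Γ : Set ℂ)) ℂ) K m
          (scaledImage t G A B R c)}.Finite) := by
  classical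
  let kk := algebraicClosure K ℂ
  have hcl : IsAlgClosure K kk := inferInstance
  have hac : IsAlgClosed kk := hcl.isAlgClosed
  have hc0k : CharZero kk := inferInstance
  let φ : Polynomial K →+* Polynomial kk := Polynomial.mapRingHom (algebraMap K kk)
  have hev : ∀ (t : kk), (algebraMap kk ℂ).comp ((Polynomial.evalRingHom t).comp φ) =
      evalAt K (algebraMap kk ℂ t) := by
    intro t
    refine Polynomial.ringHom_ext (fun a => ?_) ?_
    · simp only [φ, evalAt, RingHom.comp_apply, Polynomial.coe_mapRingHom, Polynomial.map_C,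
        Polynomial.coe_evalRingHom, Polynomial.eval_C, AlgHom.toRingHom_eq_coe, RingHom.coe_coe,
        Polynomial.aeval_C]
      rfl
    · simp only [φ, evalAt, RingHom.comp_apply, Polynomial.coe_mapRingHom, Polynomial.map_X,
        Polynomial.coe_evalRingHom, Polynomial.eval_X, AlgHom.toRingHom_eq_coe, RingHom.coe_coe,
        Polynomial.aeval_X]
  have hspec : ∀ (t : kk) (P : MvPolynomial (Fin (N + 1)) (Polynomial K)) (y : Fin (N + 1) → ℂ),
      aeval y (spec t (MvPolynomial.map φ P)) =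
        eval₂ (evalAt K (algebraMap kk ℂ t)) y P := by
    intro t P y
    rw [spec, MvPolynomial.map_map, aeval_def, eval₂_map, hev]
  have hmult : ∀ (α : kk) (i : Fin n ⊕ Fin k), (φ (c i)).rootMultiplicity α =
      order (c i) (algebraMap kk ℂ α) := by
    intro α i
    have h1 := Polynomial.eq_rootMultiplicity_map (p := φ (c i)) (f := algebraMap kk ℂ)
      (algebraMap kk ℂ).injective α
    rw [h1]
    simp only [φ, order, Polynomial.coe_mapRingHom, Polynomial.map_map]
    rfl
  -- finite sets of algebraic numbers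
  have hlift : ∀ S : Finset ℂ, (∀ z ∈ S, IsAlgebraic K z) → ∃ S' : Finset kk,
      (∀ z : kk, z ∈ S' ↔ algebraMap kk ℂ z ∈ S) ∧
      algebraMap kk ℂ '' (S' : Set kk) = (S : Set ℂ) := by
    intro S hS
    have hmem : ∀ z ∈ S, z ∈ algebraicClosure K ℂ := fun z hz =>
      mem_algebraicClosure_iff'.2 (hS z hz).isIntegral
    have h1 : ∀ z : kk, z ∈ (S.attach.image fun z => (⟨z.1, hmem z.1 z.2⟩ : kk)) ↔
        algebraMap kk ℂ z ∈ S := by
      intro z
      constructor
      · intro hz
        obtain ⟨w, _, hw⟩ := Finset.mem_image.1 hz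
        rw [← hw]
        exact w.2
      · intro hz
        exact Finset.mem_image.2 ⟨⟨z.1, hz⟩, Finset.mem_attach _ _, rfl⟩
    refine ⟨S.attach.image fun z => ⟨z.1, hmem z.1 z.2⟩, h1, ?_⟩
    ext z
    constructor
    · rintro ⟨w, hw, rfl⟩
      exact (h1 w).1 hw
    · intro hz
      exact ⟨⟨z, hmem z hz⟩, (h1 _).2 hz, rfl⟩
  obtain ⟨Γf, -, hΓf⟩ := hlift Γ hΓ
  let Γ' : Set kk := (Γf : Set kk)
  have hΓ' : algebraMap kk ℂ '' Γ' = (Γ : Set ℂ) := hΓf
  obtain ⟨F', -, hF'⟩ := hlift F hF
  choose D' hD' hD'im using fun l => hlift (D l) (hD l)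
  have hcard : ∀ I : Finset (Fin M), (I.biUnion D').card = (I.biUnion D).card := by
    intro I
    rw [← Finset.card_image_of_injective (I.biUnion D') (algebraMap kk ℂ).injective]
    congr 1
    ext z
    simp only [Finset.mem_image, Finset.mem_biUnion]
    constructor
    · rintro ⟨w, ⟨l, hl, hw⟩, rfl⟩
      exact ⟨l, hl, (hD' l w).1 hw⟩
    · rintro ⟨l, hl, hz⟩
      have h1 : z ∈ algebraMap kk ℂ '' (D' l : Set kk) := by
        rw [hD'im]
        exact hz
      obtain ⟨w, hw, hwz⟩ := h1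
      exact ⟨w, ⟨l, hl, hw⟩, hwz⟩
  -- the case without degenerate members
  by_cases hne : ∃ l, (D l).Nonempty
  swap
  · have hL1 := hL 0 (Nat.zero_le _)
    have h0 : ((Finset.univ : Finset (Fin M)).biUnion D).card = 0 := by
      rw [Finset.card_eq_zero, Finset.eq_empty_iff_forall_notMem]
      intro z hz
      obtain ⟨l, _, hl⟩ := Finset.mem_biUnion.1 hz
      exact hne ⟨l, z, hl⟩
    have h1 : M + 1 ≤ (Finset.univ : Finset (Fin M)).card + L := by
      rw [Finset.card_univ, Fintype.card_fin]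
      omega
    refine ⟨fun h => ?_, fun h => ?_⟩
    all_goals
      exfalso
      have := h Finset.univ h1
      omega
  let Rt : Finset kk := Finset.univ.biUnion D'
  have hRt : ∀ α : kk, α ∈ Rt ↔ ∃ l, α ∈ D' l := by
    intro α
    simp only [Rt, Finset.mem_biUnion, Finset.mem_univ, true_and]
  let ρt : Fin Rt.card → kk := fun l => (Rt.equivFin.symm l : kk)
  have hρ : ∀ α ∈ Rt, ∃ l, ρt l = α := by
    intro α hα
    refine ⟨Rt.equivFin ⟨α, hα⟩, ?_⟩
    simp [ρt]
  have hρ' : ∀ l, ρt l ∈ Rt := fun l => (Rt.equivFin.symm l).2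
  have hc0 : ∀ i, φ (c i) ≠ 0 := by
    intro i h0
    obtain ⟨l, z, hz⟩ := hne
    have h2 : z ∈ algebraMap kk ℂ '' (D' l : Set kk) := by
      rw [hD'im]
      exact hz
    obtain ⟨α₀, hα₀, rfl⟩ := h2
    have h1 : 0 < order (c i) (algebraMap kk ℂ α₀) := hind.1 l _ hz i
    rw [← hmult, h0, Polynomial.rootMultiplicity_zero] at h1
    exact lt_irrefl _ h1
  obtain ⟨W₀, hW₀, hΓW₀, hρW₀, hnear⟩ := nearR (k := kk) (m := m) (M := Rt.card)
    (fun i => MvPolynomial.map φ (G i)) (fun i => MvPolynomial.map φ (A i))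
    (fun i => MvPolynomial.map φ (B i)) (fun i => (R i).map φ) (fun i => φ (c i)) ρt hc0
    (fun l I hI y h1 h2 => by
      by_contra h0
      obtain ⟨l', hl'⟩ := (hRt _).1 (hρ' l)
      obtain ⟨i, hi, h3⟩ := hpos l' _ ((hD' _ _).1 hl') I hI y ⟨h0, fun i => by
        have h4 := h1 i
        rw [hspec] at h4
        exact h4⟩
      apply h3
      have h4 := h2 i hi
      rw [hspec, hspec] at h4
      exact h4)
    Γ' (Set.toFinite _)
  let W : Finset kk := hW₀.toFinset
  have hW : (W : Set kk) = W₀ := Set.Finite.coe_toFinset hW₀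
  -- the core
  have core : ∀ (t : kk), t ∉ Rt → (∃ f : Fin L → Fin M,
      Function.Injective f ∧ ∀ l, ∃ a ∈ D' (f l), ¬ Bad (W : Set kk) t a) →
      NoAtypical (algebraMap (Algebra.adjoin ℤ (Γ : Set ℂ)) ℂ) K m
        (scaledImage (algebraMap kk ℂ t) G A B R c) := by
    rintro t htRt ⟨f, hf, hp⟩ r Z Ms η hη
    rw [hW] at hp
    choose α hα hbad using hp
    have hαRt : ∀ l, α l ∈ Rt := fun l => (hRt _).2 ⟨_, hα l⟩
    have hαW : ∀ l, α l ∈ W₀ := by
      intro l
      obtain ⟨l', hl'⟩ := hρ _ (hαRt l)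
      rw [← hl']
      exact hρW₀ l'
    have htα : ∀ l, t ≠ α l := by
      intro l h
      exact htRt (h ▸ hαRt l)
    choose 𝔭 h𝔭 hmem𝔭 using fun l => exists_max W₀ (hαW l) (htα l) (hbad l)
    obtain ⟨Λ, hΛ⟩ : ∃ Λ, Λ = Subring.closure (insert t W₀) := ⟨_, rfl⟩
    subst hΛ
    let Λ : Subring kk := Subring.closure (insert t W₀)
    have hWΛ : W₀ ⊆ (Λ : Set kk) := fun z hz => Subring.subset_closure (Set.mem_insert_of_mem _ hz)
    let t' : Λ := ⟨t, Subring.subset_closure (Set.mem_insert _ _)⟩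
    let r' : Fin L → Λ := fun l => ⟨α l, hWΛ (hαW l)⟩
    have hmem : ∀ l, t' - r' l ∈ 𝔭 l := fun l => hmem𝔭 l
    obtain ⟨G', A', B', R', c', hG', hA', hB', hR', hc', hunit, hN⟩ := hnear Λ hWΛ
    have hsub : Function.Injective Λ.subtype := Subtype.val_injective
    have hsub1 : Function.Injective (Polynomial.mapRingHom Λ.subtype) :=
      Polynomial.map_injective _ hsub
    let i1 : Algebra Λ ℂ := ((algebraMap kk ℂ).comp Λ.subtype).toAlgebra
    have hmapΛ : ∀ z : Λ, algebraMap Λ ℂ z = algebraMap kk ℂ (z : kk) := fun z => rfl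
    have htower : IsScalarTower Λ kk ℂ := IsScalarTower.of_algebraMap_eq fun z => rfl
    have hinjC : Function.Injective (algebraMap Λ ℂ) := by
      intro a b h
      exact hsub ((algebraMap kk ℂ).injective h)
    -- values
    have hval : ∀ (P : MvPolynomial (Fin (N + 1)) (Polynomial K))
        (P' : MvPolynomial (Fin (N + 1)) (Polynomial Λ)),
        MvPolynomial.map (Polynomial.mapRingHom Λ.subtype) P' = MvPolynomial.map φ P →
        ∀ y : Fin (N + 1) → ℂ, aeval y (spec t' P') =
          eval₂ (evalAt K (algebraMap kk ℂ t)) y P := by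
      intro P P' hP y
      rw [← hspec t P y, ← hP]
      have h1 := map_spec P' _ rfl t'
      change _ = aeval y (spec (t' : kk) _)
      rw [← h1, aeval_def, aeval_def, eval₂_map]
      rfl
    have hcval : ∀ i, algebraMap Λ ℂ ((c' i).eval t') = evalAt K (algebraMap kk ℂ t) (c i) := by
      intro i
      have h1 : (((c' i).eval t' : Λ) : kk) = (φ (c i)).eval t := by
        rw [← hc' i, Polynomial.eval_map]
        exact (Polynomial.eval₂_at_apply Λ.subtype t').symm
      rw [hmapΛ, h1, ← hev t]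
      rfl
    have hintΓ : ∀ z, (algebraMap (Algebra.adjoin ℤ (Γ : Set ℂ)) ℂ).IsIntegralElem z →
        IsIntegral Λ z := by
      intro z hz
      refine int_up hinjC (Γ : Set ℂ) (fun g hg => ?_) hz
      rw [← hΓ'] at hg
      obtain ⟨g', hg', rfl⟩ := hg
      exact ⟨⟨g', hWΛ (hΓW₀ hg')⟩, rfl⟩
    have hpt : ∀ x ∈ scaledImage (algebraMap kk ℂ t) G A B R c,
        (fun i => x (Sum.inl i)) ∈ Z.locus →
        (fun j => x (Sum.inr j)) ∈ coset Ms η → ∀ S : Finset (Fin n ⊕ Fin k),
        AlgebraicIndependent K (fun i : S => x i) →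
        S.card + n + Module.finrank ℤ Ms ≤ r + m := by
      rintro x ⟨hx0, y, hy, ⟨s, hxy⟩, hxy2⟩ hxZ hC S hS
      have hSk : AlgebraicIndependent kk (fun i : S => x i) := hS.extendScalars kk
      have hSΛ : AlgebraicIndependent Λ (fun i : S => x i) := hSk.restrictScalars hsub
      refine criterionMR (Λ := Λ) (F := kk) (m := m) (L := L) hL
        (fun i => spec t' (G' i)) ?_ (fun i => spec t' (A' i)) (fun i => spec t' (B' i)) δ ?_ ?_
        R' ?_ (T := T) ?_ (fun i => (c' i).eval t') 𝔭 h𝔭 ?_ ?_ (fun l => t' - r' l) hmem ?_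
        (fun l i => (φ (c i)).rootMultiplicity (α l)) ?_ ?_ ?_ ?_ Z.cls
        (fun i => (Z.mat i).det.toNat) x s Ms η ?_ ?_
        (fun i j l hi hj => by
          have h5 := rel_of_locus Z hxZ i j l hi hj
          rw [Int.toNat_mul (Z.det_pos i).le (Z.det_pos j).le] at h5
          exact h5) ?_ hx0 ?_ (fun j => (hη j).1)
        (fun j => hintΓ _ (hη j).2.1) (fun j => hintΓ _ (hη j).2.2) hC.2
        y hy.1 ?_ ?_ ?_ S hSΛ hSk
      · intro i
        obtain ⟨e, he⟩ := hG i
        exact ⟨e, (hom_lift _ (hG' i) hsub1 (he.map φ)).map _⟩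
      · intro i
        exact (hom_lift _ (hA' i) hsub1 ((hA i).map φ)).map _
      · intro i
        exact (hom_lift _ (hB' i) hsub1 ((hB i).map φ)).map _
      · intro i
        refine Polynomial.monic_of_injective hsub1 ?_
        rw [hR' i]
        exact (hR i).map _
      · intro i u w h0
        refine hT i u w fun h1 => h0 ?_
        apply hsub
        have h2 := congrArg (fun P => (P.coeff u).coeff w) (hR' i)
        simp only [Polynomial.coeff_map, Polynomial.coe_mapRingHom, φ] at h2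
        rw [h2, h1, map_zero, map_zero]
      · intro l F₁ _ φ₁ hker I hI y' hy0 hyG
        obtain ⟨l', hl'⟩ := hρ _ (hαRt l)
        refine (hN l' (r' l) t' hl'.symm).1 F₁ φ₁ ?_ I hI y' hy0 hyG
        have h1 := hmem l
        rw [← hker, RingHom.mem_ker] at h1
        exact h1
      · intro l i u w h0 h1
        exact (h𝔭 l).ne_top (Ideal.eq_top_of_isUnit_mem _ h1 (hunit i u w h0))
      · intro l h0
        have h1 : t' - r' l = 0 := hinjC (h0.trans (map_zero _).symm)
        exact htα l (congrArg Subtype.val (sub_eq_zero.1 h1))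
      · intro l i
        rw [hmult]
        exact hind.1 (f l) _ ((hD' _ _).1 (hα l)) i
      · intro l i
        obtain ⟨l', hl'⟩ := hρ _ (hαRt l)
        obtain ⟨b, hb1, hb2⟩ := (hN l' (r' l) t' hl'.symm).2 (𝔭 l) (h𝔭 l) (hmem l) i
        refine ⟨1, b, fun h1 => (h𝔭 l).ne_top ((Ideal.eq_top_iff_one _).2 h1), hb1, ?_⟩
        rw [one_mul, hb2, hl']
      · intro μ hμ g hg
        simp only [hmult]
        exact ((hind.2 f (fun l => algebraMap kk ℂ (α l)) hf
          (fun l => (hD' _ _).1 (hα l))).1 μ hμ g hg)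
      · simp only [hmult]
        exact (hind.2 f (fun l => algebraMap kk ℂ (α l)) hf (fun l => (hD' _ _).1 (hα l))).2
      · intro i
        have := Z.det_pos i
        omega
      · intro i hi
        obtain ⟨z, hz⟩ := hxZ
        have e3 : x (Sum.inl i) = Z.const i := (hz i).1 hi
        rw [e3]
        rcases Z.allowed i with ⟨τ, hτ, hc⟩ | h
        · rw [hc]
          exact (singular_modulus_integral τ hτ).tower_top
        · exact hintΓ _ h
      · intro i
        have h1 := (hxy i).1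
        rw [valueAt] at h1
        have h2 : (R' i).map (Polynomial.mapRingHom Λ.subtype) = (R i).map φ := hR' i
        have h3 : ((Polynomial.aeval (x (Sum.inl i)) : Polynomial kk →ₐ[kk] ℂ).toRingHom).comp φ =
            (Polynomial.aeval (x (Sum.inl i)) : Polynomial K →ₐ[K] ℂ).toRingHom := by
          ext z
          · simp [φ]
          · simp [φ]
        have h4 : ((Polynomial.aeval (x (Sum.inl i)) : Polynomial kk →ₐ[kk] ℂ).toRingHom).comp
            (Polynomial.mapRingHom Λ.subtype) =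
            (Polynomial.aeval (x (Sum.inl i)) : Polynomial Λ →ₐ[Λ] ℂ).toRingHom := by
          refine Polynomial.ringHom_ext (fun a => ?_) ?_
          · simp only [RingHom.comp_apply, Polynomial.coe_mapRingHom, Polynomial.map_C,
              AlgHom.toRingHom_eq_coe, RingHom.coe_coe, Polynomial.aeval_C]
            rfl
          · simp
        rw [← h3, ← Polynomial.eval₂_map, ← h2, Polynomial.eval₂_map, h4] at h1
        exact h1
      · intro j
        have h1 : IsIntegral Λ (η j) := hintΓ _ (hη j).2.1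
        have h2 : IsIntegral kk (η j) := h1.tower_top
        have h3 : IsAlgebraic K (η j) := h2.isAlgebraic.restrictScalars K
        exact ⟨⟨η j, mem_algebraicClosure_iff.2 h3⟩, rfl⟩
      · intro i
        rw [hval _ _ (hG' i)]
        exact hy.2 i
      · intro i
        rw [hval _ _ (hA' _), hval _ _ (hB' _), hcval]
        exact (hxy i).2
      · intro j
        rw [hval _ _ (hA' _), hval _ _ (hB' _), hcval]
        exact hxy2 j
    refine ⟨?_, hpt⟩
    intro W' hW' hcl' hprime
    obtain ⟨w, hw⟩ := nonempty_of_prime hprime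
    obtain ⟨x, hxW, hx0, S, hS, hdim⟩ := Pool.Agent.W282.SI.generic_dim' K W' hprime
      (β := Fin k) (fun j => X (Sum.inr j)) (by
        intro j hj
        rw [mem_idealOf] at hj
        have h2 := hj w hw
        rw [eval_X] at h2
        exact (hW' hw).1.1 j h2)
    have hxA : x ∈ W' := hcl' x hxW fun j => by
      have h2 := hx0 j
      rwa [eval_X] at h2
    have h2 := hpt x (hW' hxA).1 (hW' hxA).2.1 (hW' hxA).2.2 S hS
    calc zdim W' + (n : Cardinal) + (Module.finrank ℤ Ms : Cardinal) ≤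
          (S.card : Cardinal) + (n : Cardinal) + (Module.finrank ℤ Ms : Cardinal) := by gcongr
      _ = ((S.card + n + Module.finrank ℤ Ms : ℕ) : Cardinal) := by push_cast; rfl
      _ ≤ ((r + m : ℕ) : Cardinal) := by exact_mod_cast h2
      _ = (r : Cardinal) + (m : Cardinal) := by push_cast; rfl
  -- the parameters lie in the algebraic closure
  have hfield : ∀ t ∈ Subfield.closure (F : Set ℂ), ∃ t' : kk,
      t' ∈ Subfield.closure (F' : Set kk) ∧ algebraMap kk ℂ t' = t := by
    intro t ht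
    rw [← hF', ← RingHom.map_field_closure] at ht
    exact Subfield.mem_map.1 ht
  have hring : ∀ t ∈ Subring.closure (F : Set ℂ), ∃ t' : kk,
      t' ∈ Subring.closure (F' : Set kk) ∧ algebraMap kk ℂ t' = t := by
    intro t ht
    rw [← hF', ← RingHom.map_closure] at ht
    exact Subring.mem_map.1 ht
  let E : Set kk := {t | t ∉ Rt ∧
    ¬ NoAtypical (algebraMap (Algebra.adjoin ℤ (Γ : Set ℂ)) ℂ) K m
      (scaledImage (algebraMap kk ℂ t) G A B R c)}
  have hL2 := hL 0 (Nat.zero_le _)
  have hLe : L - 1 + 1 = L := by omega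
  refine ⟨fun hM => ?_, fun hM => ?_⟩
  · have h1 := finite_field (L := L - 1) W F' D'
      (fun I hI => (hcard I).symm ▸ hM I (by omega)) E (fun t ht h => ht.2 (core t ht.1 (hLe ▸ h)))
    refine ((h1.union Rt.finite_toSet).image (algebraMap kk ℂ)).subset ?_
    rintro t ⟨ht, ht'⟩
    obtain ⟨t', ht1, rfl⟩ := hfield t ht
    by_cases h2 : t' ∈ Rt
    · exact ⟨t', Or.inr h2, rfl⟩
    · exact ⟨t', Or.inl ⟨ht1, h2, ht'⟩, rfl⟩
  · have h1 := finite_ring (L := L - 1) W F' D'
      (fun I hI => (hcard I).symm ▸ hM I (by omega)) E (fun t ht h => ht.2 (core t ht.1 (hLe ▸ h)))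
    refine ((h1.union Rt.finite_toSet).image (algebraMap kk ℂ)).subset ?_
    rintro t ⟨ht, ht'⟩
    obtain ⟨t', ht1, rfl⟩ := hring t ht
    by_cases h2 : t' ∈ Rt
    · exact ⟨t', Or.inr h2, rfl⟩
    · exact ⟨t', Or.inl ⟨ht1, h2, ht'⟩, rfl⟩

end Pool.Agent.Q170.RG
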